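import Pool.Agent.Helper50.HT.Stmts

set_option autoImplicit false

/-! # From a finite set of points to a numbered family -/

namespace Pool.Agent.Helper55.HT

open MeasureTheory Filter Pool.Agent.Helper95 Pool.Agent.Helper95.PW Pool.Agent.Helper95.LN
open Pool.Agent.Helper50.HT

theorem nr_comm (v w : R3) : nr (v - w) = nr (w - v) := by
  unfold nr
  congr 1
  simp only [Pi.sub_apply]
  ring

theorem FTA : ST_FTA := by
  classical
  intro C1 D e N S r hcard hneg hr hS hnuc hsep hen
  subst hcard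
  obtain ⟨φ, hφ⟩ : ∃ φ : Fin S.card ≃ S, True := ⟨S.equivFin.symm, trivial⟩
  have hsum : ∀ f : R3 → ℝ, ∑ k, f (φ k : R3) = ∑ v ∈ S, f v := by
    intro f
    rw [← Finset.sum_coe_sort S f]
    exact Equiv.sum_comp φ (fun v : S => f (v : R3))
  have hinj : ∀ k l, k ≠ l → (φ k : R3) ≠ φ l := by
    intro k l h h'
    exact h (φ.injective (Subtype.ext h'))
  refine ⟨fun k => φ k, fun k => r (φ k), ?_, ?_, ?_, ?_, ?_, ?_, ?_⟩
  · exact fun k => (hr _ (φ k).2).1
  · exact fun k => (hr _ (φ k).2).2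
  · exact fun k => hS _ (φ k).2
  · exact fun k l h => hsep _ (φ k).2 _ (φ l).2 (hinj k l h)
  · exact fun k => hnuc _ (φ k).2
  · intro h
    rw [hsum h, hsum (fun v => h (-v))]
    exact Finset.sum_bij' (fun v _ => -v) (fun v _ => -v) (fun v hv => hneg v hv)
      (fun v hv => hneg v hv) (fun v _ => neg_neg v) (fun v _ => neg_neg v)
      (fun v _ => by rw [neg_neg])
  · refine le_trans (le_of_eq ?_) hen
    have e1 : ∑ k, 1 / r (φ k) ^ 2 = ∑ v ∈ S, 1 / r v ^ 2 := hsum fun v => 1 / r v ^ 2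
    have e2 : ∑ k, 1 / nr (φ k : R3) = ∑ v ∈ S, 1 / nr v := hsum fun v => 1 / nr v
    have e3 : ∑ v ∈ S, ∑ w ∈ S, (if v = w then 0 else 1 / nr (v - w)) =
        ∑ k, ∑ l, (if k = l then 0 else 1 / nr ((φ k : R3) - φ l)) := by
      rw [← hsum (fun v => ∑ w ∈ S, (if v = w then 0 else 1 / nr (v - w)))]
      refine Finset.sum_congr rfl fun k _ => ?_
      rw [← hsum (fun w => if (φ k : R3) = w then 0 else 1 / nr ((φ k : R3) - w))]
      refine Finset.sum_congr rfl fun l _ => ?_
      by_cases h : k = l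
      · rw [if_pos h, if_pos (by rw [h])]
      · rw [if_neg h, if_neg (hinj k l h)]
    have e4 : ∑ k, ∑ l, (if k = l then 0 else 1 / nr ((φ k : R3) - φ l)) =
        2 * ∑ k, ∑ l, (if k < l then 1 / nr ((φ k : R3) - φ l) else 0) := by
      have e5 : ∀ k l : Fin S.card, (if k = l then 0 else 1 / nr ((φ k : R3) - φ l)) =
          (if k < l then 1 / nr ((φ k : R3) - φ l) else 0) +
            (if l < k then 1 / nr ((φ l : R3) - φ k) else 0) := by
        intro k l
        rcases lt_trichotomy k l with h | h | h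
        · rw [if_neg h.ne, if_pos h, if_neg h.asymm, add_zero]
        · subst h
          simp
        · rw [if_neg h.ne', if_neg h.asymm, if_pos h, zero_add, nr_comm]
      simp_rw [e5, Finset.sum_add_distrib]
      rw [Finset.sum_comm (f := fun k l : Fin S.card =>
        if l < k then 1 / nr ((φ l : R3) - φ k) else 0)]
      ring
    show C1 * (∑ k, 1 / r (φ k) ^ 2) - (S.card : ℝ) * (∑ k, 1 / nr (φ k : R3)) +
      (∑ k, ∑ l, if k < l then 1 / nr ((φ k : R3) - φ l) else 0) = _
    rw [e1, e2, e3, e4]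
    ring

end Pool.Agent.Helper55.HT
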