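import Pool.Agent.Helper50.HT.Stmts2

set_option autoImplicit false

/-! # The energy of the molecule in terms of the charge -/

namespace Pool.Agent.Helper55.HT

open MeasureTheory Filter Pool.Agent.Helper95 Pool.Agent.Helper95.PW Pool.Agent.Helper95.LN
open Pool.Agent.Helper50.HT

theorem TRP (h1 : ST_TRX) : ST_TRP := by
  intro d κ hd hκ
  obtain ⟨c, x0, hc, hx0, h⟩ := h1 κ d hκ hd
  have hx00 : 0 ≤ x0 := by linarith
  refine ⟨c, x0 ^ 3, hc, one_le_pow₀ hx0, ?_⟩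
  intro z E n M X Z hz hX hN hZz hzZ hE
  have hz1 : 1 ≤ z := le_trans (one_le_pow₀ hx0) hz
  have hz0 : 0 ≤ z := by linarith
  obtain ⟨x, hx⟩ : ∃ x : ℝ, x = z ^ (1 / 3 : ℝ) := ⟨_, rfl⟩
  have hx0x : x0 ≤ x := by
    have h2 : (x0 ^ 3) ^ (1 / 3 : ℝ) ≤ z ^ (1 / 3 : ℝ) :=
      Real.rpow_le_rpow (by positivity) hz (by norm_num)
    have h3 : (x0 ^ 3) ^ (1 / 3 : ℝ) = x0 := by
      rw [← Real.rpow_natCast x0 3, ← Real.rpow_mul hx00]
      norm_num
    rw [hx, ← h3]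
    exact h2
  have hx3 : x ^ 3 = z := by
    rw [hx, ← Real.rpow_natCast (z ^ (1 / 3 : ℝ)) 3, ← Real.rpow_mul hz0]
    norm_num
  have hx7 : x ^ 7 = z ^ (7 / 3 : ℝ) := by
    rw [hx, ← Real.rpow_natCast (z ^ (1 / 3 : ℝ)) 7, ← Real.rpow_mul hz0]
    norm_num
  have hκ0 : 0 < κ := by linarith
  have hsum : ∑ j, Z j = n := by
    have h2 : ∑ j, (Z j : ℝ) = n := hN.2
    exact_mod_cast h2
  have h2 := h n M X Z E x hx0x hX hsum
    (fun j => by
      rw [hx3, div_le_iff₀ hκ0, mul_comm]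
      exact hzZ j)
    (fun j => by
      rw [hx3]
      exact hZz j) hE
  rw [hx7] at h2
  refine h2.trans (le_of_eq ?_)
  ring

end Pool.Agent.Helper55.HT
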